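import Mathlib

set_option autoImplicit false

namespace Pool.Agent.H.MP_2aac2f_an

open Set Filter Topology TopologicalSpace

/-- Sturmian coding -/
noncomputable def code (t : ℝ) (j : ℕ) : ℤ := ⌊t + (j + 1 : ℕ) * √2⌋ - ⌊t + j * √2⌋

theorem cut {r t a : ℝ} (h : r ≤ t) (hn : ⌊r + a⌋ ≠ ⌊t + a⌋) : ∃ k : ℤ, r < k - a ∧ k - a ≤ t := by
  refine ⟨⌊t + a⌋, ?_, by linarith [Int.floor_le (t + a)]⟩
  have : ⌊r + a⌋ < ⌊t + a⌋ := lt_of_le_of_ne (Int.floor_mono (by linarith)) hn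
  have := Int.floor_lt.1 this
  linarith

/-- cut points -/
noncomputable def R (m : ℕ) : Finset ℝ := (Finset.range (m + 1)).image fun j : ℕ => Int.fract (-(j * √2))

theorem R_card (m : ℕ) : (R m).card ≤ m + 1 := Finset.card_image_le.trans (by simp)

theorem R_mem {m : ℕ} {r : ℝ} (h : r ∈ R m) : 0 ≤ r ∧ r < 1 := by
  obtain ⟨j, -, rfl⟩ := Finset.mem_image.1 h
  exact ⟨Int.fract_nonneg _, Int.fract_lt_one _⟩

theorem rep (m : ℕ) (t : ℝ) : ∃ r ∈ R m, ∀ j < m, code r j = code t j := by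
  classical
  have ne : ((R m).filter (· ≤ Int.fract t)).Nonempty :=
    ⟨0, Finset.mem_filter.2 ⟨Finset.mem_image.2 ⟨0, by simp, by simp⟩, Int.fract_nonneg _⟩⟩
  obtain ⟨r, hr, hm⟩ := Finset.exists_max_image _ id ne
  obtain ⟨r1, r2⟩ := Finset.mem_filter.1 hr
  have key : ∀ j ≤ m, ⌊r + j * √2⌋ = ⌊t + j * √2⌋ - ⌊t⌋ := by
    intro j hj
    have e : ⌊Int.fract t + j * √2⌋ = ⌊t + j * √2⌋ - ⌊t⌋ := by
      rw [← Int.floor_sub_intCast, Int.fract]; congr 1; ring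
    rw [← e]
    by_contra c
    obtain ⟨k, k1, k2⟩ := cut r2 c
    have : Int.fract (-(j * √2)) = k - j * √2 := by
      rw [Int.fract_eq_iff]
      exact ⟨by linarith [(R_mem r1).1], by linarith [Int.fract_lt_one t], -k, by push_cast; ring⟩
    have := hm (k - j * √2) (Finset.mem_filter.2 ⟨Finset.mem_image.2
      ⟨j, Finset.mem_range.2 (by omega), this⟩, k2⟩)
    exact absurd this (not_le.2 k1)
  exact ⟨r, r1, fun j hj => by rw [code, code, key _ (by omega), key _ (by omega)]; ring⟩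

theorem gap (L : ℕ) : ∃ M : ℕ, 0 < M ∧ ∀ a p b : ℝ, a ≤ p → p ≤ b → b - a < 1 / M →
    (∀ j < L, code a j = code p j) ∨ (∀ j < L, code b j = code p j) := by
  have ne : (Finset.Icc (-L : ℤ) L).Nonempty := ⟨0, by simp⟩
  obtain ⟨d, -, hd⟩ := Finset.exists_min_image _ (fun d : ℤ => 1 - Int.fract (d * √2)) ne
  obtain ⟨M, hM⟩ := exists_nat_one_div_lt (sub_pos.2 (Int.fract_lt_one (d * √2)))
  refine ⟨M + 1, Nat.succ_pos M, fun a p b h1 h2 h3 => ?_⟩
  by_cases c : ∀ j ≤ L, ⌊a + j * √2⌋ = ⌊p + j * √2⌋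
  · exact Or.inl fun j hj => by rw [code, code, c _ (by omega), c _ (by omega)]
  by_cases c' : ∀ j ≤ L, ⌊p + j * √2⌋ = ⌊b + j * √2⌋
  · exact Or.inr fun j hj => by rw [code, code, c' _ (by omega), c' _ (by omega)]
  push Not at c c'
  obtain ⟨i, hi, c⟩ := c
  obtain ⟨j, hj, c'⟩ := c'
  obtain ⟨k, k1, k2⟩ := cut h1 c
  obtain ⟨l, l1, l2⟩ := cut h2 c'
  have := hd (j - i) (Finset.mem_Icc.2 ⟨by omega, by omega⟩)
  have h4 : ⌊((j - i : ℤ) : ℝ) * √2⌋ < l - k := Int.floor_lt.2 (by push_cast; linarith)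
  have h5 : (⌊((j - i : ℤ) : ℝ) * √2⌋ : ℝ) + 1 ≤ l - k := by exact_mod_cast h4
  rw [Int.fract, Int.fract] at this
  rw [Int.fract] at hM
  push_cast at *
  linarith

theorem code_shift (t : ℝ) (s j : ℕ) : code (t + s * √2) j = code t (j + s) := by
  simp only [code]; push_cast; congr 2 <;> ring

theorem code_sum (t : ℝ) (n : ℕ) : ∑ j ∈ Finset.range n, code t j = ⌊t + n * √2⌋ - ⌊t⌋ := by
  have := Finset.sum_range_sub (fun j : ℕ => ⌊t + j * √2⌋) n
  simpa [code] using this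

theorem sep {n i k : ℕ} (hi : i < n) (hk : k < n) (h : ∀ j < n,
    code (Int.fract (-((i + 1 : ℕ) * √2))) j = code (Int.fract (-((k + 1 : ℕ) * √2))) j) :
    i = k := by
  have key : ∀ i k : ℕ, k < n → (∀ j < n, code (Int.fract (-((i + 1 : ℕ) * √2))) j =
      code (Int.fract (-((k + 1 : ℕ) * √2))) j) →
      Int.fract (-((k + 1 : ℕ) * √2)) ≤ Int.fract (-((i + 1 : ℕ) * √2)) := by
    intro i k hk h
    have := Finset.sum_congr rfl fun j (hj : j ∈ Finset.range (k + 1)) =>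
      h j (by have := Finset.mem_range.1 hj; omega)
    rw [code_sum, code_sum, Int.floor_fract, Int.floor_fract, sub_left_inj] at this
    have e : Int.fract (-((k + 1 : ℕ) * √2)) + (k + 1 : ℕ) * √2 =
      ((-⌊-((k + 1 : ℕ) * √2)⌋ : ℤ) : ℝ) := by rw [Int.fract]; push_cast; ring
    rw [e, Int.floor_intCast] at this
    have f := Int.floor_le (Int.fract (-((i + 1 : ℕ) * √2)) + (k + 1 : ℕ) * √2)
    rw [this, ← e] at f
    linarith
  obtain ⟨z, hz⟩ := Int.fract_eq_fract.1 (le_antisymm (key k i hi fun j hj => (h j hj).symm)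
    (key i k hk h))
  by_contra c
  have : Irrational (((k - i : ℤ) : ℝ) * √2) := irrational_sqrt_two.intCast_mul (by omega)
  exact this.ne_int z (by push_cast at hz ⊢; linarith)

attribute [local instance] PiNat.metricSpace

/-- the subshift -/
def X : Type := closure (range code)

noncomputable instance : MetricSpace X := inferInstanceAs (MetricSpace (closure (range code)))

instance : CompactSpace X := by
  refine isCompact_iff_compactSpace.1 ((isCompact_univ_pi fun _ : ℕ =>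
    (finite_Icc (0 : ℤ) 2).isCompact).closure_of_subset ?_)
  rintro _ ⟨t, rfl⟩ j -
  have s1 : 0 ≤ √2 := Real.sqrt_nonneg 2
  have s2 : √2 ≤ 2 := Real.sqrt_le_iff.2 (by norm_num)
  refine ⟨sub_nonneg.2 (Int.floor_mono (by push_cast; linarith)), ?_⟩
  have : ⌊t + (j + 1 : ℕ) * √2⌋ ≤ ⌊t + j * √2 + 2⌋ := Int.floor_mono (by push_cast; linarith)
  rw [Int.floor_add_ofNat] at this
  unfold code; omega

theorem sh_cont : Continuous fun (x : ℕ → ℤ) (j : ℕ) => x (j + 1) := by fun_prop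

/-- the shift -/
def T (x : X) : X := ⟨fun j => x.1 (j + 1), map_mem_closure sh_cont x.2 (by
  rintro _ ⟨t, rfl⟩
  exact ⟨t + (1 : ℕ) * √2, funext fun j => code_shift t 1 j⟩)⟩

theorem T_cont : Continuous T := (sh_cont.comp continuous_subtype_val).subtype_mk _

theorem T_iter (s : ℕ) : ∀ (x : X) (j : ℕ), (T^[s] x).1 j = x.1 (j + s) := by
  induction s with
  | zero => intro x j; rfl
  | succ s ih => intro x j; rw [Function.iterate_succ_apply, ih]; rfl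

/-- coded point -/
noncomputable def pt (t : ℝ) : X := ⟨code t, subset_closure ⟨t, rfl⟩⟩

theorem dense (x : X) (m : ℕ) : ∃ r ∈ R m, ∀ j < m, code r j = x.1 j := by
  obtain ⟨y, h, t, rfl⟩ := mem_closure_iff.1 x.2 _ (PiNat.isOpen_cylinder (fun _ => ℤ) x.1 m)
    (PiNat.self_mem_cylinder _ _)
  obtain ⟨r, r1, r2⟩ := rep m t
  exact ⟨r, r1, fun j hj => (r2 j hj).trans (h j hj)⟩

theorem dist_le {x y : X} {L : ℕ} (s : ℕ) (h : ∀ j < L, x.1 (j + s) = y.1 (j + s)) :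
    dist (T^[s] x) (T^[s] y) ≤ (1 / 2) ^ L :=
  PiNat.mem_cylinder_iff_dist_le.1 fun j hj => by rw [T_iter, T_iter, h j hj]

theorem eq_of_lt {x y : X} (s : ℕ) (h : dist (T^[s] x) (T^[s] y) < 1) : x.1 s = y.1 s := by
  have := PiNat.apply_eq_of_dist_lt (x := (T^[s] x).1) (y := (T^[s] y).1) (n := 0)
    (by rw [pow_zero]; exact h) le_rfl
  rwa [T_iter, T_iter, zero_add] at this

theorem hyper (L : ℕ) : ∃ K : ℕ, ∀ n, ∃ E : Finset (NonemptyCompacts X),
    E.card ≤ (n + L + 1) ^ K ∧ ∀ W : NonemptyCompacts X, ∃ V ∈ E, ∀ s < n,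
      Metric.hausdorffDist (T^[s] '' W) (T^[s] '' V) ≤ (1 / 2) ^ L := by
  classical
  obtain ⟨M, M0, hM⟩ := gap L
  have : Nonempty (Fin M) := ⟨⟨0, M0⟩⟩
  let mk : (Fin M × Bool → ℝ) → NonemptyCompacts X := fun φ =>
    ⟨⟨range (pt ∘ φ), (finite_range _).isCompact⟩, range_nonempty _⟩
  refine ⟨M * 2, fun n => ⟨(Fintype.piFinset fun _ => R (n + L)).image mk, ?_, fun W => ?_⟩⟩
  · refine Finset.card_image_le.trans ?_
    rw [Fintype.card_piFinset, Finset.prod_const]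
    simpa using Nat.pow_le_pow_left (R_card _) _
  let S := (R (n + L)).filter fun r => ∃ w ∈ W, ∀ j < n + L, code r j = w.1 j
  have hS : ∀ w ∈ W, ∃ r ∈ S, ∀ j < n + L, code r j = w.1 j := fun w hw => by
    obtain ⟨r, r1, r2⟩ := dense w (n + L)
    exact ⟨r, Finset.mem_filter.2 ⟨r1, w, hw, r2⟩, r2⟩
  obtain ⟨w0, hw0⟩ := W.nonempty
  obtain ⟨r0, hr0, -⟩ := hS w0 hw0
  have ex : ∀ q : Fin M × Bool, ∃ r ∈ S, ∀ p ∈ S, ⌊M * p⌋₊ = q.1 →
      ⌊M * r⌋₊ = q.1 ∧ if q.2 then r ≤ p else p ≤ r := by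
    rintro ⟨i, b⟩
    rcases (S.filter fun p : ℝ => ⌊M * p⌋₊ = i).eq_empty_or_nonempty with h | h
    · exact ⟨r0, hr0, fun p hp e => absurd (Finset.mem_filter.2 ⟨hp, e⟩) (h ▸ Finset.notMem_empty p)⟩
    cases b
    · obtain ⟨r, hr, hm⟩ := Finset.exists_max_image _ id h
      exact ⟨r, (Finset.mem_filter.1 hr).1, fun p hp e =>
        ⟨(Finset.mem_filter.1 hr).2, hm p (Finset.mem_filter.2 ⟨hp, e⟩)⟩⟩
    · obtain ⟨r, hr, hm⟩ := Finset.exists_min_image _ id h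
      exact ⟨r, (Finset.mem_filter.1 hr).1, fun p hp e =>
        ⟨(Finset.mem_filter.1 hr).2, hm p (Finset.mem_filter.2 ⟨hp, e⟩)⟩⟩
  choose φ φ1 φ2 using ex
  refine ⟨mk φ, Finset.mem_image_of_mem _ (Fintype.mem_piFinset.2 fun q =>
    (Finset.mem_filter.1 (φ1 q)).1), fun s hs => ?_⟩
  refine Metric.hausdorffDist_le_of_mem_dist (by positivity) ?_ ?_
  · rintro _ ⟨w, hw, rfl⟩
    obtain ⟨p, p1, p2⟩ := hS w hw
    have p3 := R_mem (Finset.mem_filter.1 p1).1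
    have Mp : (0 : ℝ) < M := Nat.cast_pos.2 M0
    have lt : ⌊M * p⌋₊ < M := (Nat.floor_lt (mul_nonneg Mp.le p3.1)).2 (by nlinarith)
    obtain ⟨a1, a2⟩ := φ2 (⟨_, lt⟩, true) p p1 rfl
    obtain ⟨b1, b2⟩ := φ2 (⟨_, lt⟩, false) p p1 rfl
    simp only [if_true, Bool.false_eq_true, if_false] at a1 a2 b1 b2
    have a3 := Nat.lt_floor_add_one (M * φ (⟨_, lt⟩, false))
    have a4 := Nat.floor_le (mul_nonneg Mp.le (R_mem (Finset.mem_filter.1
      (φ1 (⟨_, lt⟩, true))).1).1)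
    rw [b1] at a3
    rw [a1] at a4
    rcases hM (φ (⟨_, lt⟩, true) + s * √2) (p + s * √2) (φ (⟨_, lt⟩, false) + s * √2)
      (by linarith) (by linarith) (by rw [lt_div_iff₀ Mp]; linarith) with h | h <;>
    · simp only [code_shift] at h
      exact ⟨_, ⟨_, ⟨_, rfl⟩, rfl⟩, dist_le s fun j hj =>
        (p2 _ (by omega)).symm.trans (h j hj).symm⟩
  · rintro _ ⟨_, ⟨q, rfl⟩, rfl⟩
    obtain ⟨w, hw, h⟩ := (Finset.mem_filter.1 (φ1 q)).2
    exact ⟨_, ⟨w, hw, rfl⟩, dist_le s fun j hj => h _ (by omega)⟩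

end Pool.Agent.H.MP_2aac2f_an
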